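import Pool.Agent.H88.MCR.Stmts

/-! Row TOP of board mcr (MP_ffb5eb_co). -/

set_option autoImplicit false

namespace Pool.MCR

theorem top_thm (hORD : ORD_S) (hMAI : MAI_S) (hTRF : TRF_S) (hDRW : DRW_S) : TOP_S := by
  intro V _ F hF
  obtain ⟨e, p, hp, hadj⟩ := hORD V F hF
  obtain ⟨L, iL, D, hG, hT⟩ := hMAI p hp (Fintype.card V)
  obtain ⟨D', hG', hT', hgen⟩ := hTRF L (Fintype.card V) D (parT p) hG hT
  obtain ⟨Dr, hDr⟩ := hDRW V (Fintype.card V) (fun v => (e v : ℕ)) D' (parT p)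
    (fun a b h => e.injective (Fin.ext h)) (fun v => (e v).2) hG' hT' hgen
  refine ⟨Dr, ?_⟩
  intro q hq q' hq' hdis
  induction q using Sym2.ind with
  | _ u v =>
    induction q' using Sym2.ind with
    | _ u' v' =>
      have hA : F.Adj u v := hq
      have hA' : F.Adj u' v' := hq'
      refine hDr u v u' v' hA.ne hA'.ne ?_ ?_ ?_ ?_ (hadj u v hA) (hadj u' v' hA')
      · rintro rfl
        exact hdis u ⟨Sym2.mem_mk_left _ _, Sym2.mem_mk_left _ _⟩
      · rintro rfl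
        exact hdis u ⟨Sym2.mem_mk_left _ _, Sym2.mem_mk_right _ _⟩
      · rintro rfl
        exact hdis v ⟨Sym2.mem_mk_right _ _, Sym2.mem_mk_left _ _⟩
      · rintro rfl
        exact hdis v ⟨Sym2.mem_mk_right _ _, Sym2.mem_mk_right _ _⟩

end Pool.MCR
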